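import Mathlib
import Pool.Graph.R_pool_sql_team_seeded_b677cdb8.E8helper26.ETC.Count

set_option autoImplicit false

/-! Fields with small balls of radius two, `p = 2`: comparability and the number of classes that are
not rigid. The arguments are those of the library files `E8helper26.ETC.Base` and
`E8helper26.ETC.Count`, with the bound for the ball in place of the square of the bound for the norm
groups. -/

namespace Pool.Agent.Helper39.RB

open Pool.Agent.Y920.EP Pool.Agent.E8helper26.ETC

/-- the elements of distance at most two from `a` -/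
def ball {A : Type} [CommGroup A] (Nn : A → Subgroup A) (a : A) : Set A :=
  {b | b = 1 ∨ ∃ m, m ≠ 1 ∧ m ∈ Nn a ∧ b ∈ Nn m}

/-- a homomorphism `φ` from the units of a field to a group `A` with kernel the squares, and
subgroups `N(a)` of `A` such that the ball of `a` has at most `M` elements for `a ≠ 1` -/
structure SysB {F : Type} [Field F] {A : Type} [CommGroup A] (φ : Fˣ →* A) (Nn : A → Subgroup A)
    (M : ℕ) : Prop where
  ker : ∀ u : Fˣ, φ u = 1 ↔ ∃ c : Fˣ, u = c ^ 2
  symm : ∀ a b : A, b ∈ Nn a → a ∈ Nn b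
  sum : ∀ u v : Fˣ, (v : F) = 1 + u → φ v ∈ Nn (φ (-u))
  neg : ∀ a : A, φ (-1) * a ∈ Nn a
  exp2 : ∀ a : A, a * a = 1
  fin : ∀ a : A, a ≠ 1 → (ball Nn a).Finite ∧ (ball Nn a).ncard ≤ M

section

variable {F : Type} [Field F] {A : Type} [CommGroup A] {φ : Fˣ →* A}

theorem hlB {Nn : A → Subgroup A} {M : ℕ} (h : SysB φ Nn M) : HL2 φ M := by
  classical
  intro x y z hz hxy
  have hc0 : φ (-(y / x)) ≠ 1 := by
    intro e
    apply hxy
    have e1 : -y = -(y / x) * x := by rw [neg_mul, div_mul_cancel]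
    rw [e1, map_mul, e, one_mul]
  set c0 := φ (-(y / x)) with hc0d
  obtain ⟨hf0, hn0⟩ := h.fin c0 hc0
  let B : Finset A := hf0.toFinset.image fun b => φ (-z) * b
  have hB : B.card ≤ M := by
    refine Finset.card_image_le.trans ?_
    rw [← Set.ncard_eq_toFinset_card _ hf0]
    exact hn0
  refine ⟨B, hB, ?_⟩
  rintro w hw ⟨x', hx', hφx'⟩
  have ht0 : (z : F) + w ≠ 0 := by
    intro e
    apply hw
    have : w = -z := Units.ext (by rw [Units.val_neg]; linear_combination e)
    rw [this, Finset.mem_image]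
    refine ⟨1, ?_, mul_one _⟩
    rw [Set.Finite.mem_toFinset]
    exact Or.inl rfl
  refine ⟨Units.mk0 _ ht0, Units.val_mk0 _, ?_⟩
  set t := Units.mk0 _ ht0 with ht
  have htv : (t : F) = z + w := Units.val_mk0 _
  have h1 : φ (z / x) ∈ Nn c0 := by
    refine h.sum (y / x) (z / x) ?_
    rw [Units.val_div_eq_div_val, Units.val_div_eq_div_val, hz]
    field_simp
  have h2 : φ (t / x') ∈ Nn c0 := by
    have e : φ (-(y / x')) = c0 := by
      rw [hc0d, map_neg' (y / x'), map_neg' (y / x), map_div, map_div, hφx']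
    rw [← e]
    refine h.sum (y / x') (t / x') ?_
    rw [Units.val_div_eq_div_val, Units.val_div_eq_div_val, htv, hz]
    field_simp
    rw [hx']
    ring
  have h3 : φ (t / z) ∈ Nn c0 := by
    have e : t / z = (t / x') / (z / x) * (x' / x) := by
      ext
      simp only [Units.val_div_eq_div_val, Units.val_mul]
      have h5 : (z : F) ≠ 0 := z.ne_zero
      have h6 : (x : F) ≠ 0 := x.ne_zero
      have h7 : (x' : F) ≠ 0 := x'.ne_zero
      field_simp
    rw [e, map_mul, map_div φ x' x, hφx', div_self', mul_one, map_div φ (t / x')]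
    exact div_mem h2 h1
  have h4 : φ (-(w / z)) ∈ Nn (φ (t / z)) := by
    apply h.symm
    refine h.sum (w / z) (t / z) ?_
    rw [Units.val_div_eq_div_val, Units.val_div_eq_div_val, htv]
    field_simp
  by_contra hne
  have hm1 : φ (t / z) ≠ 1 := by
    rw [map_div]
    exact fun e => hne (div_eq_one.1 e)
  apply hw
  refine Finset.mem_image.2 ⟨φ (-(w / z)), ?_, ?_⟩
  · rw [Set.Finite.mem_toFinset]
    exact Or.inr ⟨φ (t / z), hm1, h3, h4⟩
  · rw [← map_mul, neg_mul_neg, mul_div_cancel]

end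

section

variable {F : Type} [Field F] {A : Type} [CommGroup A] {φ : Fˣ →* A} {Nn : A → Subgroup A} {M : ℕ}
  (h : SysB φ Nn M) {two : Fˣ} (h2 : (two : F) = 2)

include h h2 in
/-- the case in which `2` is smaller than `1` -/
lemma card_b (hb : Bad φ) (hnle : ¬ Le φ (14 * M) 1 two) (G : Finset A)
    (hG : ∀ g ∈ G, ∃ r s : Fˣ, Dec φ r s ∧ φ r = g) : G.card ≤ M := by
  classical
  by_contra hcard
  push Not at hcard
  have hk := h.ker
  have hL := hlB h
  obtain ⟨a, ha⟩ : G.Nonempty := Finset.card_pos.1 (by omega)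
  obtain ⟨r, s, hd, hra⟩ := hG a ha
  have hε := bad_neg hd hb
  have hny : ∀ u : Fˣ, φ (-u) = φ u := fun u => by rw [map_neg', hε, one_mul]
  have hneg := neg_le hL hd hε
  have nosm : ∀ ρ : Fˣ, φ ρ ≠ 1 → Ml φ ρ 1 → ¬ Le φ (6 * M) 1 ρ := fun ρ h1 h3 h4 =>
    no_small hk hL hd h2 hε hnle h1 h3 h4
  choose! x y hdx hx using hG
  -- `1 - r x²`
  have hu : ∀ g : A, ∃ u : Fˣ, (u : F) = 1 + ((-(r * x g ^ 2) : Fˣ) : F) := by
    intro g
    have h0 : (1 : F) + ((-(r * x g ^ 2) : Fˣ) : F) ≠ 0 := by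
      have := ne_of_phi (φ := φ) (x := 1) (y := -(r * x g ^ 2)) (by
        rw [map_one, neg_neg, map_mul, phi_sq hk, mul_one]
        exact fun e => hd.r1 e.symm)
      rwa [Units.val_one] at this
    exact ⟨Units.mk0 _ h0, Units.val_mk0 _⟩
  choose u hu using hu
  have hφr : ∀ g : A, φ (-(r * x g ^ 2)) = a := by
    intro g
    rw [hny, map_mul, phi_sq hk, mul_one, hra]
  have hun : ∀ g : A, φ (u g) ∈ Nn a := by
    intro g
    have h1 := h.sum _ _ (hu g)
    rwa [hny, hφr] at h1
  have ha1 : a ≠ 1 := by rw [← hra]; exact hd.r1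
  -- the class of `1 - r x²` is not the class of `r`
  have hφu : ∀ g' ∈ G, φ (u g') ≠ a := by
    intro g' hg' e
    have hge2 := (hdx g' hg').r_le hL
    refine nosm (-(1 / (r * x g' ^ 2))) ?_ ?_ ?_
    · rw [hny, map_div, map_one, map_mul, phi_sq hk, mul_one, one_div, phi_inv hk]
      exact hd.r1
    · refine ⟨-(u g' / (r * x g' ^ 2)), ?_, ?_⟩
      · rw [Units.val_neg, Units.val_div_eq_div_val, hu, Units.val_neg, Units.val_neg,
          Units.val_div_eq_div_val, Units.val_one]
        have h3 : ((r * x g' ^ 2 : Fˣ) : F) ≠ 0 := Units.ne_zero _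
        field_simp
        ring
      · rw [hny, map_div, e, map_one, map_mul, phi_sq hk, mul_one, hra, div_self']
    · have h3 := le1_mul hneg (le1_mul (le1_inv (hd.r_le hL)) (le1_mul (le1_inv hge2)
        (le1_inv hge2)))
      have e1 : -1 * (r⁻¹ * ((x g')⁻¹ * (x g')⁻¹)) = -(1 / (r * x g' ^ 2)) := by
        rw [neg_one_mul, one_div, ← mul_inv, ← mul_inv, ← pow_two]
      rw [e1] at h3
      exact le_mono (by omega) h3
  obtain ⟨hfin, hcN⟩ := h.fin a ha1
  have hmaps : Set.MapsTo (fun g => φ (u g)) (G : Set A) (hfin.toFinset : Set A) := by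
    intro g hg
    rw [Finset.mem_coe, Set.Finite.mem_toFinset]
    have h3 := hφu g hg
    have h4 := hun g
    refine Or.inr ⟨a * φ (u g), ?_, ?_, ?_⟩
    · intro e
      apply h3
      have h5 := h.exp2 (φ (u g))
      have h6 : a * (φ (u g) * φ (u g)) = φ (u g) := by rw [← mul_assoc, e, one_mul]
      rw [h5, mul_one] at h6
      exact h6.symm
    · refine mul_mem ?_ h4
      have h5 := h.neg a
      rwa [hε, one_mul] at h5
    · apply h.symm
      refine mul_mem (h.symm _ _ h4) ?_
      have h5 := h.neg (φ (u g))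
      rwa [hε, one_mul] at h5
  have hlt : hfin.toFinset.card < G.card := by
    rw [← Set.ncard_eq_toFinset_card _ hfin]
    omega
  obtain ⟨g, hg, g', hg', hgg, hue⟩ := Finset.exists_ne_map_eq_of_card_lt_of_maps_to hlt hmaps
  have hue : φ (u g) = φ (u g') := hue
  have hφug := hφu g' hg'
  -- units
  have hle1 := (hdx g hg).le_r hL
  have hge1 := (hdx g hg).r_le hL
  have hle2 := (hdx g' hg').le_r hL
  have hge2 := (hdx g' hg').r_le hL
  have hxg := hx g hg
  have hxg' := hx g' hg'
  set X := x g with hX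
  set Z := x g' with hZ
  have hXZ : φ X ≠ φ Z := by rw [hxg, hxg']; exact hgg
  -- `1 ≤ -X/Z`, `1 ≤ -Z/X`
  have hq : ∀ X Z : Fˣ, Le φ M 1 X → Le φ M Z 1 → Le φ (6 * M) 1 (-(X / Z)) := by
    intro X Z h1 h3
    have h4 := le1_mul hneg (le1_mul h1 (le1_inv h3))
    rw [← div_eq_mul_inv, neg_one_mul] at h4
    exact le_mono (by omega) h4
  have hdec : ∃ t : Fˣ, Dec φ (X / Z) t ∧ (t : F) = 1 - X / Z := by
    have h0 : (1 : F) - (X / Z : F) ≠ 0 := by
      intro e
      apply hXZ
      have e1 : (X : F) = Z := by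
        have e2 : (X : F) / Z = 1 := by linear_combination (-1) * e
        rwa [div_eq_one_iff_eq Z.ne_zero] at e2
      rw [Units.ext e1]
    refine ⟨Units.mk0 _ h0, ?_, Units.val_mk0 _⟩
    set t := Units.mk0 _ h0 with ht
    have htv : (t : F) = 1 - X / Z := Units.val_mk0 _
    have hr1 : φ (X / Z) ≠ 1 := by rw [map_div]; exact fun e => hXZ (div_eq_one.1 e)
    refine dec_of hε ?_ hr1 ?_ ?_
    · rw [htv, Units.val_div_eq_div_val]; ring
    · intro e
      refine nosm (-(X / Z)) ?_ ?_ (hq X Z hle1 hge2)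
      · rw [hny]; exact hr1
      · refine ⟨t, ?_, by rw [e, map_one]⟩
        rw [htv, Units.val_one, Units.val_neg, Units.val_div_eq_div_val]; ring
    · intro e
      refine nosm (-(Z / X)) ?_ ?_ (hq Z X hle2 hge1)
      · rw [hny, map_div]; exact fun e => hXZ (div_eq_one.1 e).symm
      · refine ⟨-(t / (X / Z)), ?_, ?_⟩
        · rw [Units.val_neg, Units.val_div_eq_div_val, htv, Units.val_div_eq_div_val,
            Units.val_one, Units.val_neg, Units.val_div_eq_div_val]
          have hX0 : (X : F) ≠ 0 := X.ne_zero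
          have hZ0 : (Z : F) ≠ 0 := Z.ne_zero
          field_simp
          ring
        · rw [hny, map_div, e, div_self', map_one]
  obtain ⟨t, hdt, htv⟩ := hdec
  obtain ⟨q, hqv⟩ := hdt.exists_q
  obtain ⟨hqt, -⟩ := hb _ _ hdt q hqv
  -- the small unit
  refine nosm (r * (Z ^ 2 * (t * q)) / u g') ?_ ?_ ?_
  · rw [map_div, map_mul, map_mul, map_mul, phi_sq hk, one_mul, hqt, phi_mul_self hk, mul_one, hra]
    exact fun e => hφug (div_eq_one.1 e).symm
  · refine ⟨u g / u g', ?_, ?_⟩
    · rw [Units.val_div_eq_div_val, Units.val_div_eq_div_val, Units.val_one, hu g, Units.val_mul,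
        Units.val_mul, Units.val_mul, htv, hqv, Units.val_div_eq_div_val]
      have h3 : ((u g' : Fˣ) : F) ≠ 0 := Units.ne_zero _
      have hZ0 : (Z : F) ≠ 0 := Z.ne_zero
      rw [Units.val_pow_eq_pow_val]
      have e2 := hu g'
      rw [Units.val_neg, Units.val_mul, Units.val_pow_eq_pow_val] at e2
      rw [Units.val_neg, Units.val_mul, Units.val_pow_eq_pow_val, ← hX]
      rw [← hZ] at e2
      field_simp
      rw [e2]
      ring
    · rw [map_div, hue, div_self', map_one]
  · -- lower bounds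
    have ht1 : Le φ M 1 t := hdt.le_s hL
    have hq1 : Le φ M 1 q := by
      refine hL 1 (X / Z) q ?_ ?_
      · rw [Units.val_one, hqv]
      · rw [map_one, hny]; exact fun e => hdt.r1 e.symm
    have hu1 : Le φ M (u g') 1 := by
      refine hL (u g') (r * Z ^ 2) 1 ?_ ?_
      · rw [hu, Units.val_one, Units.val_neg]; ring
      · rw [hny, map_mul, phi_sq hk, mul_one, hra]; exact hφug
    have h3 := le1_mul (hd.le_r hL) (le1_mul (le1_mul hle2 hle2) (le1_mul ht1 hq1))
    have h4 := le1_mul h3 (le1_inv hu1)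
    rw [← pow_two, ← div_eq_mul_inv] at h4
    exact le_mono (by omega) h4

include h h2 in
/-- the number of classes that are not rigid -/
theorem card_dec (G : Finset A) (hG : ∀ g ∈ G, ∃ r s : Fˣ, Dec φ r s ∧ φ r = g) :
    G.card ≤ 14 * M + 1 := by
  have hk := h.ker
  have hL := hlB h
  by_cases hb : Bad φ
  · by_cases hle : Le φ (14 * M) 1 two
    · exact (card_a hk h2 hb hle G hG).trans (Nat.le_succ _)
    · have h1 := card_b h h2 hb hle G hG
      omega
  · unfold Bad at hb
    push Not at hb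
    obtain ⟨r, s, hd, q, hq, hne⟩ := hb
    have hle : Le φ (2 * M) 1 two := by
      refine two_of hL hd h2 hq ?_
      by_cases h1 : φ q = φ s
      · exact Or.inr (hne h1)
      · exact Or.inl h1
    have h1 := su2 (φ := φ) (k := 7 * M) G (by
      intro g hg
      obtain ⟨r, s, hd, rfl⟩ := hG g hg
      exact exists_w hk hL hd h2 hle)
    omega

include h h2 in
/-- the set of the classes that are not rigid is finite -/
theorem ncard_dec : {g : A | ∃ r s : Fˣ, Dec φ r s ∧ φ r = g}.Finite ∧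
    {g : A | ∃ r s : Fˣ, Dec φ r s ∧ φ r = g}.ncard ≤ 14 * M + 1 := by
  have hf : {g : A | ∃ r s : Fˣ, Dec φ r s ∧ φ r = g}.Finite := by
    by_contra hc
    obtain ⟨t, ht, htc⟩ := (Set.not_finite.1 hc : Set.Infinite _).exists_subset_card_eq
      (14 * M + 2)
    have := card_dec h h2 t fun g hg => ht hg
    omega
  refine ⟨hf, ?_⟩
  rw [Set.ncard_eq_toFinset_card _ hf]
  exact card_dec h h2 _ fun g hg => (Set.Finite.mem_toFinset hf).1 hg

end

end Pool.Agent.Helper39.RB
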