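import Mathlib
import Pool.Graph.R_pool_sql_team_seeded_b677cdb8.E8helper26.ETC.Nonrigid
import Pool.Agent.Helper39.RB.Count

set_option autoImplicit false

/-! Fields with small balls of radius two, `p = 2`: the basic part and the valuation ring. -/

namespace Pool.Agent.Helper39.RB

open scoped Quaternion
open Pool.Agent.H315R3.ETC Pool.Agent.TH188.ET Pool.Agent.Y920.ETC
open Pool.Agent.E8helper26.ETC (Dec map_neg' neg_neg_one phi_sq pair_le exists_quot VG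
  dec_of_not_hr exists_val big)

variable {F : Type} [Field F]

lemma four_one {A : Type} [CommGroup A] {u v : A} (hu : u * u = 1) (hv : v * v = 1) :
    u * (v * (u * v)) = 1 := by
  rw [mul_left_comm v, ← mul_assoc, hu, one_mul, hv]

/-- the classes of distance at most two from `a` -/
def nball (a : Fˣ) : Set (Fˣ ⧸ sqG F) :=
  {β | β = 1 ∨ ∃ b g : Fˣ, (b : Fˣ ⧸ sqG F) = β ∧ g ∉ sqG F ∧ g ∈ nG a ∧ g ∈ nG b}

section

variable {S : QData} {φ : Fˣ →* S.G} (hs : Function.Surjective φ)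
  (hk : ∀ a : Fˣ, φ a = 1 ↔ ∃ b : Fˣ, a = b ^ 2) (hn : φ (-1) = S.neg)
  (h0 : S.q 1 1 = S.zero)
  (hq : ∀ a b c d : Fˣ, S.q (φ a) (φ b) = S.q (φ c) (φ d) ↔
      Nonempty (ℍ[F,(a : F),0,(b : F)] ≃ₐ[F] ℍ[F,(c : F),0,(d : F)]))
  (h2 : (2 : F) ≠ 0) (hS : IsQuat S)

/-- the map induced on the classes -/
lemma exists_psi {A : Type} [CommGroup A] {φ : Fˣ →* A}
    (hk : ∀ a : Fˣ, φ a = 1 ↔ ∃ b : Fˣ, a = b ^ 2) :
    ∃ ψ : Fˣ ⧸ sqG F → A, (∀ a : Fˣ, ψ (a : Fˣ ⧸ sqG F) = φ a) ∧ Function.Injective ψ := by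
  have hker : ∀ a : Fˣ, a ∈ sqG F ↔ φ a = 1 := by
    intro a
    rw [mem_sqG, hk]
  let ψ : Fˣ ⧸ sqG F → A := Quotient.lift φ (by
    intro a b hab
    have h1 : a⁻¹ * b ∈ sqG F := QuotientGroup.leftRel_apply.1 hab
    rw [hker, map_mul, map_inv] at h1
    exact (inv_mul_eq_one.1 h1))
  have hψ : ∀ a : Fˣ, ψ (a : Fˣ ⧸ sqG F) = φ a := fun _ => rfl
  refine ⟨ψ, hψ, ?_⟩
  intro c d hcd
  induction c using QuotientGroup.induction_on with
  | H a =>
    induction d using QuotientGroup.induction_on with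
    | H b =>
      rw [hψ, hψ] at hcd
      rw [QuotientGroup.eq, hker, map_mul, map_inv, hcd, inv_mul_cancel]

include hs hk hn h0 hq h2 in
lemma sysB {M : ℕ} (hM : ∀ a : Fˣ, a ∉ sqG F →
      (nball a).Finite ∧ (nball a).ncard ≤ M) : SysB φ (VG hS) M := by
  have hsym : ∀ a b : S.G, b ∈ VG hS a → a ∈ VG hS b := by
    intro a b hab
    show S.q b a = S.zero
    rw [hS.qs2]
    exact hab
  refine ⟨hk, hsym, ?_, ?_, ?_, ?_⟩
  · intro u v huv
    show S.q (φ (-u)) (φ v) = S.zero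
    rw [q_zero h0 hq h2]
    exact ⟨1, 1, by rw [huv, Units.val_neg]; ring⟩
  · intro a
    rw [hn]
    exact hS.qs1 a
  · exact hS.exp2
  · intro a ha
    obtain ⟨x, rfl⟩ := hs a
    have hx : x ∉ sqG F := by
      rw [mem_sqG, ← hk]
      exact ha
    obtain ⟨h1, h3⟩ := hM x hx
    obtain ⟨ψ, hψ, -⟩ := exists_psi (F := F) hk
    have hsub : ball (VG hS) (φ x) ⊆ ψ '' nball x := by
      rintro β (rfl | ⟨m, hm1, hm2, hm3⟩)
      · refine ⟨((1 : Fˣ) : Fˣ ⧸ sqG F), Or.inl rfl, ?_⟩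
        rw [hψ, map_one]
      · obtain ⟨g, rfl⟩ := hs m
        obtain ⟨b, rfl⟩ := hs β
        refine ⟨(b : Fˣ ⧸ sqG F), Or.inr ⟨b, g, rfl, ?_, ?_, ?_⟩, hψ b⟩
        · rw [mem_sqG, ← hk]
          exact hm1
        · exact (q_zero h0 hq h2 _ _).1 hm2
        · exact (q_zero h0 hq h2 _ _).1 (hsym _ _ hm3)
    exact ⟨(h1.image ψ).subset hsub,
      (Set.ncard_le_ncard hsub (h1.image ψ)).trans ((Set.ncard_image_le h1).trans h3)⟩

include hs hk hn h0 hq h2 hS in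
/-- the basic part is small -/
theorem card_basic {M : ℕ} (hM : ∀ a : Fˣ, a ∉ sqG F →
      (nball a).Finite ∧ (nball a).ncard ≤ M) (B : Subgroup S.G)
    (hB : ∀ a : S.G, a ∈ B ↔ ¬ Bi S a) :
    (B : Set S.G).Finite ∧ (B : Set S.G).ncard ≤ 28 * M + 4 := by
  obtain ⟨two, htwo⟩ : ∃ u : Fˣ, (u : F) = 2 := ⟨Units.mk0 2 h2, Units.val_mk0 _⟩
  obtain ⟨hf, hc⟩ := ncard_dec (sysB hs hk hn h0 hq h2 hS hM) htwo
  set R := {g : S.G | ∃ r s : Fˣ, Dec φ r s ∧ φ r = g} with hR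
  have hsub : (B : Set S.G) ⊆ ({1, S.neg} ∪ R) ∪ (S.neg * ·) '' R := by
    intro a ha
    have ha' : ¬ Bi S a := (hB a).1 ha
    by_cases ha1 : a = 1
    · exact Or.inl (Or.inl (Or.inl ha1))
    by_cases han : a = S.neg
    · exact Or.inl (Or.inl (Or.inr han))
    by_cases h3 : Hr S a
    · have h4 : ¬ Hr S (S.neg * a) := fun h4 => ha' ⟨ha1, han, h3, h4⟩
      right
      refine ⟨S.neg * a, ?_, by
        show S.neg * (S.neg * a) = a
        rw [← mul_assoc, hS.exp2, one_mul]⟩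
      refine dec_of_not_hr hs hk hn h0 hq h2 ?_ ?_ h4
      · intro e
        apply han
        exact (eq_of_mul hS _ _ e).symm
      · intro e
        exact ha1 (mul_eq_left.1 e)
    · exact Or.inl (Or.inr (dec_of_not_hr hs hk hn h0 hq h2 ha1 han h3))
  have hfin : (({1, S.neg} ∪ R) ∪ (S.neg * ·) '' R : Set S.G).Finite :=
    ((Set.toFinite _).union hf).union (hf.image _)
  refine ⟨hfin.subset hsub, (Set.ncard_le_ncard hsub hfin).trans ?_⟩
  have h3 := Set.ncard_union_le (({1, S.neg} : Set S.G) ∪ R) ((S.neg * ·) '' R)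
  have h4 := Set.ncard_union_le ({1, S.neg} : Set S.G) R
  have h5 : ({1, S.neg} : Set S.G).ncard ≤ 2 := pair_le _ _
  have h6 : ((S.neg * ·) '' R).ncard ≤ R.ncard := Set.ncard_image_le hf
  omega

end

/-- fields with balls of size at most `M` -/
theorem exists_ring (h2 : (2 : F) ≠ 0) {M : ℕ} (hM : ∀ a : Fˣ, a ∉ sqG F →
      (nball a).Finite ∧ (nball a).ncard ≤ M) :
    ∃ (O : ValuationSubring F) (U : Subgroup Fˣ), Sqr O ∧ O.unitGroup ≤ U ∧ sqG F ≤ U ∧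
      (sqG F).relIndex U ≠ 0 ∧ (sqG F).relIndex U ≤ 56 * M + 8 := by
  obtain ⟨A, _, φ, hs, hker⟩ := exists_quot F (sqG F)
  have hk : ∀ a : Fˣ, φ a = 1 ↔ ∃ b : Fˣ, a = b ^ 2 := by
    intro a
    rw [← mem_sqG, ← hker, MonoidHom.mem_ker]
  have hq := mkS_q h2 hk
  have hS : IsQuat (mkS φ) := isQuat (S := mkS φ) h2 φ hs hk rfl rfl hq
  obtain ⟨B, hB⟩ := Pool.Agent.Y67.ET.t_BASIC (mkS φ) hS
  obtain ⟨hBf, hBc⟩ := card_basic (S := mkS φ) (φ := φ) hs hk rfl rfl hq h2 hS hM B hB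
  have hBf' : Finite B := hBf
  obtain ⟨O, U, h3, h4, h5, h6, h7⟩ := exists_val (S := mkS φ) (φ := φ) hk rfl rfl hq h2 B hBf' hB
  refine ⟨O, U, h3, h4, h5, h6, h7.trans ?_⟩
  have hBc' : Nat.card B ≤ 28 * M + 4 := hBc
  omega

/-- the classes of the `a` such that `a, -a` are not squares and the norm group of `F(√a)` contains
a class besides those of `1` and `-a` -/
def bigC (F : Type) [Field F] : Set (Fˣ ⧸ sqG F) :=
  {c | ∃ a b : Fˣ, (a : Fˣ ⧸ sqG F) = c ∧ a ∉ sqG F ∧ -a ∉ sqG F ∧ b ∈ nG a ∧ b ∉ sqG F ∧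
    -(a * b) ∉ sqG F}

theorem ncard_big (h2 : (2 : F) ≠ 0) {M : ℕ} (hM : ∀ a : Fˣ, a ∉ sqG F →
      (nball a).Finite ∧ (nball a).ncard ≤ M) :
    (bigC F).Finite ∧ (bigC F).ncard ≤ 14 * M + 1 := by
  obtain ⟨A, _, φ, hs, hker⟩ := exists_quot F (sqG F)
  have hk : ∀ a : Fˣ, φ a = 1 ↔ ∃ b : Fˣ, a = b ^ 2 := by
    intro a
    rw [← mem_sqG, ← hker, MonoidHom.mem_ker]
  have hq := mkS_q h2 hk
  have hS : IsQuat (mkS φ) := isQuat (S := mkS φ) h2 φ hs hk rfl rfl hq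
  obtain ⟨two, htwo⟩ : ∃ u : Fˣ, (u : F) = 2 := ⟨Units.mk0 2 h2, Units.val_mk0 _⟩
  have hsys : SysB (φ : Fˣ →* (mkS φ).G) (VG hS) M :=
    sysB (S := mkS φ) (φ := φ) hs hk rfl rfl hq h2 hS hM
  obtain ⟨hf, hc⟩ := ncard_dec hsys htwo
  set R : Set (mkS φ).G := {g | ∃ r s : Fˣ, Dec (φ : Fˣ →* (mkS φ).G) r s ∧ φ r = g} with hR
  obtain ⟨ψ, hψ, hinj⟩ := exists_psi (F := F) hk
  have hmap : ∀ c ∈ bigC F, ψ c ∈ R := by
    rintro c ⟨a, b, rfl, ha, hna, hb1, hb2, hb3⟩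
    rw [hψ]
    have ha1 : φ a ≠ 1 := by
      rw [Ne, hk, ← mem_sqG]; exact ha
    have han : φ a ≠ φ (-1) := by
      intro e
      apply hna
      rw [mem_sqG, ← hk, map_neg', e, neg_neg_one]
    refine dec_of_not_hr (S := mkS φ) (φ := φ) hs hk rfl rfl hq h2 ha1 han ?_
    intro hr
    rcases hr (φ b) ((q_zero (S := mkS φ) (φ := φ) rfl hq h2 a b).2 hb1) with e | e
    · apply hb2
      rw [mem_sqG, ← hk]
      exact e
    · apply hb3
      have e' : φ b = φ (-1) * φ a := e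
      rw [mem_sqG, ← hk, map_neg', map_mul, e']
      have h5 := neg_neg_one (φ := φ)
      have h6 := Pool.Agent.E8helper26.ETC.phi_mul_self hk a
      exact four_one h5 h6
  constructor
  · exact Set.Finite.of_finite_image (hf.subset (by rintro _ ⟨c, hc', rfl⟩; exact hmap c hc'))
      hinj.injOn
  · exact (Set.ncard_le_ncard_of_injOn ψ hmap hinj.injOn hf).trans hc

end Pool.Agent.Helper39.RB
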