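import Mathlib
import Pool.Agent.Helper39.RB.Field
import Pool.Graph.R_seed8.Y920.ETC.GalH
import Pool.Graph.R_seed8.Y620.ET.Extv
import Pool.Graph.R_seed8.Y37.ET.Max2

set_option autoImplicit false

/-! # MP_600e55_nt: Efrat's conjecture for fields with small balls of radius two, `p = 2`

Let `F` be a field of characteristic not two; no finiteness of `F*/F*²` is assumed. Let `N(a)` be the
group of the nonzero values of `x² - a y²`, the norm group of `F(√a)`. The elements of `F*/F*²` are
the vertices of a graph in which `a` and `b` are joined if `b ∈ N(a)`, that is, if the quaternion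
algebra `(a, b)` splits.

**Theorem.** Suppose that for all nonsquares `a` at most `M` classes `b` have distance at most two
from `a`: `b` is trivial or `N(a)` and `N(b)` have a nontrivial class in common.

* There is a valuation ring `O` with `2 ∈ O*`, `1 + m ⊆ F*²` and at most `56 M + 8` classes of units.
* If `F*/F*²` is infinite or has more than `56 M + 8` elements, then the maximal pro-`2` Galois group
  is the decomposition group of a valuation with nontrivial inertia, and the conclusion of Q1 holds.

The library result `QuadraticBoundH26` has the bound `32 N²`, where all norm groups have at most `N`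
classes; then `M ≤ N² - 2 N + 2`. The same arguments are used: for `w, y ∈ F*` write `w ≪ y` if
`y + w ∈ y F*²`, and `y ≤ z` if `w ≪ y` implies `w ≪ z` unless `w` is in one of at most a constant
times `M` classes. The point is that the exceptional classes in the basic comparison, `x ≤ x + y` if
`- x y` is not a square, are the classes of a translate of the ball of radius two around `- x y`, and
that in the case in which `2` is infinitely small the classes which are not rigid inject into such a
ball and not only into a norm group. -/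

namespace Pool.Agent.Results.MP_600e55_nt.RadiusTwoBallsTwo

open Pool.Agent.Y920.ETC

/-- the group of squares of `F*` -/
def squares (F : Type) [Field F] : Subgroup Fˣ := (powMonoidHom 2 : Fˣ →* Fˣ).range

/-- the group of the nonzero values of `x² - a y²`: the norm group of `F(√a)` if `a` is not a
square -/
def normGroup {F : Type} [Field F] (a : Fˣ) : Subgroup Fˣ where
  carrier := {c | ∃ x y : F, (c : F) = x ^ 2 - a * y ^ 2}
  one_mem' := (nG a).one_mem
  mul_mem' := (nG a).mul_mem
  inv_mem' := (nG a).inv_mem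

/-- the classes `b` of `F*/F*²` of distance at most two from `a`: `b` is trivial, or some nonsquare
`g` lies both in the norm group of `a` and in the norm group of `b` -/
def normBall {F : Type} [Field F] (a : Fˣ) : Set (Fˣ ⧸ squares F) :=
  {β | β = 1 ∨ ∃ b g : Fˣ, (b : Fˣ ⧸ squares F) = β ∧ g ∉ squares F ∧
    g ∈ normGroup a ∧ g ∈ normGroup b}

/-- `K` is the compositum of the finite Galois extensions of `F` of 2-power degree -/
def IsMaximalTwoExtension {F : Type} [Field F] (K : IntermediateField F (AlgebraicClosure F)) :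
    Prop :=
  K = sSup {L : IntermediateField F (AlgebraicClosure F) |
    FiniteDimensional F L ∧ IsGalois F L ∧ ∃ k : ℕ, Module.finrank F L = 2 ^ k}

/-- the subgroup `H` of `Gal(K/F)` is the decomposition group of a valuation of `K`, with nontrivial
inertia -/
def IsDecompositionGroup {F K : Type} [Field F] [Field K] [Algebra F K]
    (H : Subgroup (K ≃ₐ[F] K)) : Prop :=
  ∃ (Γ : Type) (_ : LinearOrderedCommGroupWithZero Γ) (w : Valuation K Γ),
    (∀ σ : K ≃ₐ[F] K, σ ∈ H ↔ ∀ x : K, (w (σ x) ≤ 1 ↔ w x ≤ 1)) ∧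
    ∃ σ ∈ H, σ ≠ 1 ∧ ∀ x : K, w x ≤ 1 → w (σ x - x) < 1

/-- `G` is the free pro-`2` product of the closed subgroups `H i` -/
def IsFreeProduct {G : Type} [Group G] [TopologicalSpace G] {n : ℕ}
    (H : Fin n → Subgroup G) : Prop :=
  (∀ i, IsClosed (H i : Set G)) ∧
  ∀ (P : Type) [Group P] [Finite P], (∃ k : ℕ, Nat.card P = 2 ^ k) →
    ∀ φ : (i : Fin n) → (H i →* P), (∀ i, IsOpen ((φ i).ker : Set (H i))) →
      ∃! ψ : G →* P, IsOpen (ψ.ker : Set G) ∧ ∀ i, ∀ x : H i, ψ (x : G) = φ i x

/-- the conclusion of Q1 for `Gal(K/F)` and `p = 2` -/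
def ElementaryType (F K : Type) [Field F] [Field K] [Algebra F K] : Prop :=
  ∃ (n : ℕ) (H : Fin n → Subgroup (K ≃ₐ[F] K)), IsFreeProduct H ∧
    ∀ i, Nonempty (H i ≃ₜ* Multiplicative (PadicInt 2)) ∨ IsDecompositionGroup (H i) ∨
      Nat.card (H i) = 2

theorem result (F : Type) [Field F] (h2 : (2 : F) ≠ 0) (M : ℕ)
    (hM : ∀ a : Fˣ, a ∉ squares F → (normBall a).Finite ∧ (normBall a).ncard ≤ M) :
    -- a valuation ring whose units have few classes and whose one-units are squares
    (∃ O : ValuationSubring F,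
      (squares F).relIndex (O.unitGroup ⊔ squares F) ≠ 0 ∧
      (squares F).relIndex (O.unitGroup ⊔ squares F) ≤ 56 * M + 8 ∧
      (2 : F)⁻¹ ∈ O ∧ ∀ x : F, x ∈ O → x⁻¹ ∉ O → ∃ y : F, y ^ 2 = 1 + x) ∧
    ((squares F).index = 0 ∨ 56 * M + 8 < (squares F).index →
      ∀ K : IntermediateField F (AlgebraicClosure F), IsMaximalTwoExtension K →
        IsDecompositionGroup (⊤ : Subgroup (K ≃ₐ[F] K)) ∧ ElementaryType F K) := by
  have hM' : ∀ a : Fˣ, a ∉ sqG F → (Pool.Agent.Helper39.RB.nball a).Finite ∧
      (Pool.Agent.Helper39.RB.nball a).ncard ≤ M := hM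
  obtain ⟨O, U, hO, hU, hsU, h0, hc⟩ := Pool.Agent.Helper39.RB.exists_ring h2 hM'
  have hsU' : squares F ≤ U := hsU
  refine ⟨⟨O, ?_, ?_, hO.1, ?_⟩, ?_⟩
  · intro e
    have h3 := Subgroup.relIndex_mul_relIndex (squares F) (O.unitGroup ⊔ squares F) U
      le_sup_right (sup_le hU hsU')
    rw [e, zero_mul] at h3
    exact h0 h3.symm
  · have h3 := Subgroup.relIndex_mul_relIndex (squares F) (O.unitGroup ⊔ squares F) U
      le_sup_right (sup_le hU hsU')
    have h4 : (squares F).relIndex U ≤ 56 * M + 8 := hc
    have h5 : (squares F).relIndex U ≠ 0 := h0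
    exact (Nat.le_of_dvd (Nat.pos_of_ne_zero h5) ⟨_, h3.symm⟩).trans h4
  · intro x hx hx'
    obtain ⟨y, hy⟩ := hO.2.2 x hx hx'
    exact ⟨y, by rw [pow_two, ← hy]⟩
  · intro hbig K hK
    have hex : ∃ c : Fˣ, c ∉ U := by
      by_contra hcon
      push Not at hcon
      have hUt : U = ⊤ := by
        rw [eq_top_iff]
        exact fun c _ => hcon c
      rw [hUt, Subgroup.relIndex_top_right] at h0 hc
      rcases hbig with h | h
      · exact h0 h
      · exact absurd hc (not_le.2 h)
    obtain ⟨c, hcU⟩ := hex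
    have hD : DecInert F K := decInert Pool.Agent.Y620.ET.t_EXTV Pool.Agent.Y37.ET.t_MAX2 F h2 O hO
      ⟨c, ?_⟩ K hK
    · refine ⟨?_, ?_⟩
      · obtain ⟨Γ, iΓ, w, hw, σ, hσ, hi⟩ := hD
        exact ⟨Γ, iΓ, w, fun τ => ⟨fun _ x => hw τ x, fun _ => Subgroup.mem_top τ⟩, σ,
          Subgroup.mem_top σ, hσ, hi⟩
      · obtain ⟨n, H, h1, h3, h4⟩ := efratTwo F K hD
        exact ⟨n, H, ⟨h1, h3⟩, fun i => (h4 i).imp id fun h5 => h5.imp id fun h6 => h6.2⟩
    · rintro f ⟨h6, h7⟩
      apply hcU
      have h8 : c * f ^ 2 ∈ O.unitGroup := by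
        rw [ValuationSubring.mem_unitGroup_iff]
        refine le_antisymm ((ValuationSubring.valuation_le_one_iff _ _).2 h6) ?_
        have h9 := (ValuationSubring.valuation_le_one_iff O _).2 h7
        rw [Units.val_inv_eq_inv_val, map_inv₀] at h9
        have h10 : O.valuation ((c * f ^ 2 : Fˣ) : F) ≠ 0 := by
          rw [Valuation.ne_zero_iff]
          exact Units.ne_zero _
        exact (inv_le_one₀ (zero_lt_iff.2 h10)).1 h9
      have h11 : f ^ 2 ∈ U := hsU ⟨f, rfl⟩
      have h12 := mul_mem (hU h8) (inv_mem h11)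
      rwa [mul_inv_cancel_right] at h12

end Pool.Agent.Results.MP_600e55_nt.RadiusTwoBallsTwo
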